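import Pool.Agent.helper5.SYM.SpecB

set_option autoImplicit false

namespace Pool.Agent.SYM
open Finset CT Polynomial

section gen
variable {V D A : Type} [AddCommGroup A] {s : D → D} {ρ : A → D → D} {Y : D → Prop}
  {X : Finset (V × Fin 4)} {κ : V × Fin 4 → D}

theorem BIJ_uniq (h : Fre s ρ Y X κ) {x y : V × Fin 4} (hx : x ∈ X) (hy : y ∈ X) {a b : A}
    (hab : ρ a (κ x) = ρ b (κ y)) : x = y ∧ a = b := by
  have h1 : ρ (-b + a) (κ x) = κ y := by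
    rw [h.radd, hab, ← h.radd, neg_add_cancel, h.r0]
  obtain ⟨h2, h3⟩ := h.q3 x hx y hy _ h1
  exact ⟨h2, (neg_add_eq_zero.1 h3).symm⟩

theorem BIJ_mk (h : Fre s ρ Y X κ) (τ₀ : D → D) (π : V × Fin 4 → V × Fin 4) (b : V × Fin 4 → A) :
    ∃ T : D → D, (∀ x ∈ X, ∀ a, T (ρ a (κ x)) = ρ (a + b x) (κ (π x))) ∧
      ∀ d, ¬ Y d → T d = τ₀ d := by
  classical
  refine ⟨fun d => if hd : Y d then
    ρ ((h.q2 d hd).choose_spec.2.choose + b (h.q2 d hd).choose) (κ (π (h.q2 d hd).choose))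
    else τ₀ d, ?_, ?_⟩
  · intro x hx a
    have hY : Y (ρ a (κ x)) := (h.Yr a _).2 (h.q1 x hx)
    show (if hd : Y (ρ a (κ x)) then
      ρ ((h.q2 _ hd).choose_spec.2.choose + b (h.q2 _ hd).choose) (κ (π (h.q2 _ hd).choose))
      else τ₀ (ρ a (κ x))) = _
    rw [dif_pos hY]
    have h1 := (h.q2 _ hY).choose_spec.1
    have h2 := (h.q2 _ hY).choose_spec.2.choose_spec
    obtain ⟨h3, h4⟩ := BIJ_uniq h h1 hx h2
    rw [h4, h3]
  · intro d hd
    exact dif_neg hd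

theorem BIJ_ext (h : Fre s ρ Y X κ) {τ τ' : D → D} (h1 : ∀ a d, τ (ρ a d) = ρ a (τ d))
    (h2 : ∀ a d, τ' (ρ a d) = ρ a (τ' d)) (h3 : ∀ d, ¬ Y d → τ d = τ' d)
    (h4 : ∀ x ∈ X, τ (κ x) = τ' (κ x)) : τ = τ' := by
  funext d
  by_cases hd : Y d
  · obtain ⟨x, hx, a, ha⟩ := h.q2 d hd
    rw [← ha, h1, h2, h4 x hx]
  · exact h3 d hd

end gen

theorem BIJ_pa (t : Fin 3) (i : Fin 4) : pa t (pa t i) = i ∧ pa t i ≠ i := by
  revert t i
  decide

theorem BIJ_pa0 : ∀ t t' : Fin 3, pa t 0 = pa t' 0 → t = t' := by decide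

theorem BIJ_four : ∀ a b c d : Fin 4, (![a, b, c, d] a = 0) → (![a, b, c, d] b = 1) →
    (![a, b, c, d] c = 2) → (![a, b, c, d] d = 3) → a ≠ 0 → b ≠ 1 → c ≠ 2 → d ≠ 3 →
    ∃ t : Fin 3, pa t 0 = a ∧ pa t 1 = b ∧ pa t 2 = c ∧ pa t 3 = d := by decide

theorem BIJ_inv (f : Fin 4 → Fin 4) (h1 : ∀ i, f (f i) = i) (h2 : ∀ i, f i ≠ i) :
    ∃ t : Fin 3, ∀ i, f i = pa t i := by
  have hf : ![f 0, f 1, f 2, f 3] = f := by
    funext i
    fin_cases i <;> rfl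
  obtain ⟨t, h3, h4, h5, h6⟩ := BIJ_four (f 0) (f 1) (f 2) (f 3) (by rw [hf]; exact h1 0)
    (by rw [hf]; exact h1 1) (by rw [hf]; exact h1 2) (by rw [hf]; exact h1 3) (h2 0) (h2 1)
    (h2 2) (h2 3)
  refine ⟨t, fun i => ?_⟩
  fin_cases i
  · exact h3.symm
  · exact h4.symm
  · exact h5.symm
  · exact h6.symm

section data
variable {V A : Type} [Fintype V] [DecidableEq V] [AddCommGroup A] [Fintype A] {G : SimpleGraph V}
  {θ : A → (G ≃g G)} {R J K : Finset V} {γ : V → A} {κ : V × Fin 4 → G.Dart}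

omit [Fintype V] [DecidableEq V] [AddCommGroup A] [Fintype A] in
theorem BIJ_sdinj (σ : G ≃g G) {d d' : G.Dart} (h : sd σ d = sd σ d') : d = d' := by
  have h1 : (sd σ d).fst = (sd σ d').fst := by rw [h]
  have h2 : (sd σ d).snd = (sd σ d').snd := by rw [h]
  have h3 : d.fst = d'.fst := σ.injective h1
  have h4 : d.snd = d'.snd := σ.injective h2
  exact SimpleGraph.Dart.ext _ _ (Prod.ext h3 h4)

omit [Fintype A] in
theorem BIJ_memX {x : V × Fin 4} : x ∈ XX R J K ↔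
    x.1 ∈ R ∨ (x.1 ∈ J ∧ (x.2 = 0 ∨ x.2 = 1)) ∨ (x.1 ∈ K ∧ x.2 = 0) := by
  unfold XX
  simp only [mem_union, mem_product, mem_univ, and_true, mem_insert, mem_singleton, or_assoc]

/-- the partner -/
def BIJ_pi (R J : Finset V) (t : V → Fin 3) (x : V × Fin 4) : V × Fin 4 :=
  if x.1 ∈ R then (x.1, pa (t x.1) x.2)
  else if x.1 ∈ J then (x.1, if t x.1 = 0 then x.2 else if x.2 = 0 then 1 else 0)
  else x

/-- the translation -/
def BIJ_b (R J : Finset V) (γ : V → A) (t : V → Fin 3) (ζ : V → A) (x : V × Fin 4) : A :=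
  if x.1 ∈ R then 0
  else if x.1 ∈ J then (if t x.1 = 1 then 0 else γ x.1)
  else ζ x.1

omit [Fintype A] [Fintype V] in
theorem BIJ_fst (t : V → Fin 3) (x : V × Fin 4) : (BIJ_pi R J t x).1 = x.1 := by
  unfold BIJ_pi
  split_ifs <;> rfl

omit [Fintype A] [Fintype V] [DecidableEq V] in
theorem BIJ_Y {τ : G.Dart → G.Dart} (h1 : IsTS τ) (h2 : ∀ a, Inv (θ a) τ)
    {d : G.Dart} : Yf θ (τ d) ↔ Yf θ d := by
  have hinj : ∀ d d', τ d = τ d' → d = d' := fun d d' h => by rw [← h1.1 d, h, h1.1]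
  constructor
  · intro h3 a ha
    apply h3 a
    rw [← h2 a, ha]
  · intro h3 a ha
    apply h3 a
    apply hinj
    rw [h2 a, ha]

theorem BIJ_T (hFRD : FRD_stmt) (h : Dat θ R J K γ κ) {τ₀ : G.Dart → G.Dart} (h1 : IsTS τ₀)
    (h2 : ∀ a, Inv (θ a) τ₀) (t : V → Fin 3) (ζ : V → A) (hζ : ζ ∈ pz K) :
    ∃ T : G.Dart → G.Dart, IsTS T ∧ (∀ a, Inv (θ a) T) ∧ (∀ d, ¬ Yf θ d → T d = τ₀ d) ∧
      TF θ R J K γ κ t ζ T := by
  classical
  have hF := hFRD V A G θ R J K γ κ h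
  have hζ' : (∀ k ∈ K, ζ k ∈ O2 A) ∧ ∀ k, k ∉ K → ζ k = 0 := by
    unfold pz at hζ
    simp only [mem_filter, mem_univ, true_and] at hζ
    exact hζ
  obtain ⟨T, hT, hT0⟩ := BIJ_mk hF τ₀ (BIJ_pi R J t) (BIJ_b R J γ t ζ)
  have hRJ : ∀ v, v ∈ J → v ∉ R := fun v hv hv' => disjoint_left.1 h.dRJ hv' hv
  have hRK : ∀ v, v ∈ K → v ∉ R := fun v hv hv' => disjoint_left.1 h.dRK hv' hv
  have hJK : ∀ v, v ∈ K → v ∉ J := fun v hv hv' => disjoint_left.1 h.dJK hv' hv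
  have hγ : ∀ j ∈ J, γ j ≠ 0 ∧ γ j + γ j = 0 := fun j hj => (h.Jst j hj).1
  have hpi : ∀ x ∈ XX R J K, BIJ_pi R J t x ∈ XX R J K ∧ BIJ_pi R J t (BIJ_pi R J t x) = x ∧
      BIJ_b R J γ t ζ x + BIJ_b R J γ t ζ (BIJ_pi R J t x) = 0 ∧
      (BIJ_pi R J t x = x → BIJ_b R J γ t ζ x ≠ 0) ∧ θ (BIJ_b R J γ t ζ x) x.1 = x.1 := by
    rintro ⟨v, i⟩ hx
    rw [BIJ_memX] at hx
    dsimp only at hx
    rcases hx with hx | ⟨hx, hi⟩ | ⟨hx, hi⟩
    · have e1 : BIJ_pi R J t (v, i) = (v, pa (t v) i) := by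
        unfold BIJ_pi; rw [if_pos hx]
      have e2 : ∀ i', BIJ_b R J γ t ζ (v, i') = 0 := by
        intro i'; unfold BIJ_b; rw [if_pos hx]
      refine ⟨?_, ?_, ?_, ?_, ?_⟩
      · rw [e1, BIJ_memX]; exact Or.inl hx
      · rw [e1]
        unfold BIJ_pi
        rw [if_pos hx]
        dsimp only
        rw [(BIJ_pa _ _).1]
      · rw [e1, e2, e2, add_zero]
      · intro h3
        rw [e1] at h3
        exact absurd (Prod.ext_iff.1 h3).2 (BIJ_pa _ _).2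
      · rw [e2]; exact h.one v
    · have hv := hRJ v hx
      have e1 : ∀ i', BIJ_pi R J t (v, i') =
          (v, if t v = 0 then i' else if i' = 0 then 1 else 0) := by
        intro i'; unfold BIJ_pi; rw [if_neg hv, if_pos hx]
      have e2 : ∀ i', BIJ_b R J γ t ζ (v, i') = if t v = 1 then 0 else γ v := by
        intro i'; unfold BIJ_b; rw [if_neg hv, if_pos hx]
      refine ⟨?_, ?_, ?_, ?_, ?_⟩
      · rw [e1, BIJ_memX]
        refine Or.inr (Or.inl ⟨hx, ?_⟩)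
        dsimp only
        split_ifs
        · exact hi
        · exact Or.inr rfl
        · exact Or.inl rfl
      · rw [e1, e1]
        by_cases h3 : t v = 0
        · simp [h3]
        · rcases hi with hi | hi
          · simp [h3, hi]
          · simp [h3, hi]
      · rw [e1, e2, e2]
        split_ifs
        · exact add_zero _
        · exact (hγ v hx).2
      · intro h3
        rw [e1] at h3
        have h4 := (Prod.ext_iff.1 h3).2
        dsimp only at h4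
        have h5 : t v = 0 := by
          by_contra h6
          rw [if_neg h6] at h4
          rcases hi with hi | hi
          · rw [if_pos hi, hi] at h4; exact absurd h4 (by decide)
          · rw [if_neg (by rw [hi]; decide), hi] at h4; exact absurd h4 (by decide)
        rw [e2, if_neg (by rw [h5]; decide)]
        exact (hγ v hx).1
      · rw [e2]
        dsimp only
        split_ifs
        · exact h.one v
        · exact ((h.Jst v hx).2 _).2 (Or.inr rfl)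
    · have hv := hRK v hx
      have hv' := hJK v hx
      have e1 : BIJ_pi R J t (v, i) = (v, i) := by
        unfold BIJ_pi; rw [if_neg hv, if_neg hv']
      have e2 : BIJ_b R J γ t ζ (v, i) = ζ v := by
        unfold BIJ_b; rw [if_neg hv, if_neg hv']
      refine ⟨?_, ?_, ?_, ?_, ?_⟩
      · rw [e1, BIJ_memX]; exact Or.inr (Or.inr ⟨hx, hi⟩)
      · rw [e1, e1]
      · rw [e1, e2]; exact (hζ'.1 v hx).2
      · intro _
        rw [e2]; exact (hζ'.1 v hx).1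
      · exact h.Kst v hx _
  have hfst : ∀ (a : A) (d : G.Dart), (sd (θ a) d).fst = θ a d.fst := fun _ _ => rfl
  have hTS : IsTS T := by
    refine ⟨?_, ?_, ?_⟩
    · intro d
      by_cases hd : Yf θ d
      · obtain ⟨x, hx, a, ha⟩ := hF.q2 d hd
        obtain ⟨h3, h4, h5, -, -⟩ := hpi x hx
        rw [← ha, hT x hx, hT _ h3, h4, add_assoc, h5, add_zero]
      · rw [hT0 d hd, hT0 _ (fun h3 => hd ((BIJ_Y h1 h2).1 h3)), h1.1]
    · intro d
      by_cases hd : Yf θ d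
      · obtain ⟨x, hx, a, ha⟩ := hF.q2 d hd
        obtain ⟨h3, h4, h5, -, h6⟩ := hpi x hx
        rw [← ha, hT x hx]
        show θ _ (κ _).fst = θ a (κ x).fst
        rw [(h.fst _ h3).1, (h.fst _ hx).1, h.hom, BIJ_fst, h6]
      · rw [hT0 d hd, h1.2.1]
    · intro d hdd
      by_cases hd : Yf θ d
      · obtain ⟨x, hx, a, ha⟩ := hF.q2 d hd
        obtain ⟨h3, h4, h5, h6, -⟩ := hpi x hx
        rw [← ha, hT x hx] at hdd
        obtain ⟨h7, h8⟩ := BIJ_uniq hF h3 hx hdd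
        exact h6 h7 (add_eq_left.1 h8)
      · rw [hT0 d hd] at hdd
        exact h1.2.2 d hdd
  have hInv : ∀ a, Inv (θ a) T := by
    intro c d
    by_cases hd : Yf θ d
    · obtain ⟨x, hx, a, ha⟩ := hF.q2 d hd
      have h3 : sd (θ c) d = sd (θ (c + a)) (κ x) := by
        rw [← ha]; exact (hF.radd c a (κ x)).symm
      rw [h3, hT x hx, ← ha, hT x hx, add_assoc]
      exact hF.radd _ _ _
    · rw [hT0 d hd, hT0 _ (fun h3 => hd ((hF.Yr c d).1 h3)), h2 c]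
  have hTx : ∀ x ∈ XX R J K, T (κ x) = sd (θ (BIJ_b R J γ t ζ x)) (κ (BIJ_pi R J t x)) := by
    intro x hx
    have h3 := hT x hx 0
    rw [zero_add] at h3
    rw [← h3]
    exact congrArg T (hF.r0 (κ x)).symm
  refine ⟨T, hTS, hInv, hT0, ?_, ?_, ?_, ?_⟩
  · intro r hr i
    rw [hTx (r, i) (BIJ_memX.2 (Or.inl hr))]
    have e1 : BIJ_pi R J t (r, i) = (r, pa (t r) i) := by
      unfold BIJ_pi; rw [if_pos hr]
    have e2 : BIJ_b R J γ t ζ (r, i) = 0 := by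
      unfold BIJ_b; rw [if_pos hr]
    rw [e1, e2]
    exact hF.r0 _
  · intro j hj
    have hv := hRJ j hj
    rw [hTx (j, 0) (BIJ_memX.2 (Or.inr (Or.inl ⟨hj, Or.inl rfl⟩)))]
    have e1 : BIJ_pi R J t (j, 0) = (j, if t j = 0 then 0 else 1) := by
      unfold BIJ_pi; rw [if_neg hv, if_pos hj]; simp
    have e2 : BIJ_b R J γ t ζ (j, 0) = if t j = 1 then 0 else γ j := by
      unfold BIJ_b; rw [if_neg hv, if_pos hj]
    rw [e1, e2]
    by_cases h3 : t j = 0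
    · rw [if_pos h3, if_pos h3, if_neg (by rw [h3]; decide)]
    · rw [if_neg h3, if_neg h3]
      by_cases h4 : t j = 1
      · rw [if_pos h4, if_pos h4]; exact hF.r0 _
      · rw [if_neg h4, if_neg h4]
  · intro j hj
    have hv := hRJ j hj
    rw [hTx (j, 1) (BIJ_memX.2 (Or.inr (Or.inl ⟨hj, Or.inr rfl⟩)))]
    have e1 : BIJ_pi R J t (j, 1) = (j, if t j = 0 then 1 else 0) := by
      unfold BIJ_pi; rw [if_neg hv, if_pos hj]; simp
    have e2 : BIJ_b R J γ t ζ (j, 1) = if t j = 1 then 0 else γ j := by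
      unfold BIJ_b; rw [if_neg hv, if_pos hj]
    rw [e1, e2]
    by_cases h3 : t j = 0
    · rw [if_pos h3, if_pos h3, if_neg (by rw [h3]; decide)]
    · rw [if_neg h3, if_neg h3]
      by_cases h4 : t j = 1
      · rw [if_pos h4, if_pos h4]; exact hF.r0 _
      · rw [if_neg h4, if_neg h4]
  · intro k hk
    have hv := hRK k hk
    have hv' := hJK k hk
    rw [hTx (k, 0) (BIJ_memX.2 (Or.inr (Or.inr ⟨hk, rfl⟩)))]
    have e1 : BIJ_pi R J t (k, 0) = (k, 0) := by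
      unfold BIJ_pi; rw [if_neg hv, if_neg hv']
    have e2 : BIJ_b R J γ t ζ (k, 0) = ζ k := by
      unfold BIJ_b; rw [if_neg hv, if_neg hv']
    rw [e1, e2]

theorem BIJ_ex (hFRD : FRD_stmt) (h : Dat θ R J K γ κ) {τ : G.Dart → G.Dart} (h1 : IsTS τ)
    (h2 : ∀ a, Inv (θ a) τ) : ∃ (t : V → Fin 3) (ζ : V → A), (∀ v, v ∉ R ∪ J → t v = 0) ∧
      (∀ k ∈ K, ζ k ∈ O2 A) ∧ (∀ k, k ∉ K → ζ k = 0) ∧ TF θ R J K γ κ t ζ τ := by
  classical
  have hF := hFRD V A G θ R J K γ κ h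
  have hRJ : ∀ v, v ∈ J → v ∉ R := fun v hv hv' => disjoint_left.1 h.dRJ hv' hv
  have hq3 : ∀ x ∈ XX R J K, ∀ y ∈ XX R J K, ∀ a b, sd (θ a) (κ x) = sd (θ b) (κ y) →
      x = y ∧ a = b := fun x hx y hy a b hab => BIJ_uniq hF hx hy hab
  have hr0 : ∀ d : G.Dart, sd (θ 0) d = d := hF.r0
  have hradd : ∀ a b (d : G.Dart), sd (θ a) (sd (θ b) d) = sd (θ (a + b)) d :=
    fun a b d => (hF.radd a b d).symm
  have hR : ∀ r ∈ R, ∃ t : Fin 3, ∀ i, τ (κ (r, i)) = κ (r, pa t i) := by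
    intro r hr
    have hX : ∀ i, (r, i) ∈ XX R J K := fun i => BIJ_memX.2 (Or.inl hr)
    have h3 : ∀ i, ∃ i', τ (κ (r, i)) = κ (r, i') := by
      intro i
      apply h.Rd r hr
      rw [h1.2.1, (h.fst _ (hX i)).1]
    choose f hf using h3
    obtain ⟨t, ht⟩ := BIJ_inv f (fun i => by
      have h4 : κ (r, f (f i)) = κ (r, i) := by rw [← hf, ← hf, h1.1]
      have h5 := hq3 _ (hX (f (f i))) _ (hX i) 0 0 (by rw [h4])
      exact (Prod.ext_iff.1 h5.1).2) (fun i hi => by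
      have h4 := h1.2.2 (κ (r, i))
      rw [hf, hi] at h4
      exact h4 rfl)
    exact ⟨t, fun i => by rw [hf, ht]⟩
  have hJ : ∀ j ∈ J, ∃ t : Fin 3, (τ (κ (j, 0)) = (if t = 0 then sd (θ (γ j)) (κ (j, 0)) else
      if t = 1 then κ (j, 1) else sd (θ (γ j)) (κ (j, 1)))) ∧
      (τ (κ (j, 1)) = (if t = 0 then sd (θ (γ j)) (κ (j, 1)) else
      if t = 1 then κ (j, 0) else sd (θ (γ j)) (κ (j, 0)))) := by
    intro j hj
    have hX0 : (j, 0) ∈ XX R J K := BIJ_memX.2 (Or.inr (Or.inl ⟨hj, Or.inl rfl⟩))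
    have hX1 : (j, 1) ∈ XX R J K := BIJ_memX.2 (Or.inr (Or.inl ⟨hj, Or.inr rfl⟩))
    have hγ : γ j ≠ 0 ∧ γ j + γ j = 0 := (h.Jst j hj).1
    have hne : ((j, 0) : V × Fin 4) ≠ (j, 1) := fun h3 => absurd (Prod.ext_iff.1 h3).2
      (show ¬ ((0 : Fin 4) = 1) by decide)
    have hgg : ∀ d : G.Dart, sd (θ (γ j)) (sd (θ (γ j)) d) = d := by
      intro d; rw [hradd, hγ.2, hr0]
    rcases h.Jd j hj (τ (κ (j, 0))) (by rw [h1.2.1, (h.fst _ hX0).1]) with h3 | h3 | h3 | h3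
    · exact absurd h3 (h1.2.2 _)
    · refine ⟨0, ?_, ?_⟩
      · rw [if_pos rfl, h3]
      · rw [if_pos rfl]
        rcases h.Jd j hj (τ (κ (j, 1))) (by rw [h1.2.1, (h.fst _ hX1).1]) with h4 | h4 | h4 | h4
        · exfalso
          have h5 : κ (j, 1) = sd (θ (γ j)) (κ (j, 0)) := by rw [← h3, ← h4, h1.1]
          have h6 := hq3 _ hX1 _ hX0 0 (γ j) (by rw [hr0]; exact h5)
          exact hne h6.1.symm
        · exfalso
          have h5 : κ (j, 1) = κ (j, 0) := by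
            rw [← h1.1 (κ (j, 1)), h4, h2, h3, hgg]
          have h6 := hq3 _ hX1 _ hX0 0 0 (by rw [h5])
          exact hne h6.1.symm
        · exact absurd h4 (h1.2.2 _)
        · exact h4
    · refine ⟨1, ?_, ?_⟩
      · rw [if_neg (by decide), if_pos rfl, h3]
      · rw [if_neg (by decide), if_pos rfl, ← h3, h1.1]
    · refine ⟨2, ?_, ?_⟩
      · rw [if_neg (by decide), if_neg (by decide), h3]
      · rw [if_neg (by decide), if_neg (by decide)]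
        have h5 : κ (j, 0) = sd (θ (γ j)) (τ (κ (j, 1))) := by
          rw [← h2, ← h3, h1.1]
        rw [h5, hgg]
  have hK : ∀ k ∈ K, ∃ a : A, a ∈ O2 A ∧ τ (κ (k, 0)) = sd (θ a) (κ (k, 0)) := by
    intro k hk
    have hX0 : (k, 0) ∈ XX R J K := BIJ_memX.2 (Or.inr (Or.inr ⟨hk, rfl⟩))
    obtain ⟨a, ha⟩ := h.Kd k hk (τ (κ (k, 0))) (by rw [h1.2.1, (h.fst _ hX0).1])
      ((BIJ_Y h1 h2).2 (h.fst _ hX0).2)
    refine ⟨a, ⟨?_, ?_⟩, ha⟩
    · rintro rfl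
      rw [hr0] at ha
      exact h1.2.2 _ ha
    · have h5 : sd (θ (a + a)) (κ (k, 0)) = κ (k, 0) := by
        rw [← hradd, ← ha, ← h2, ← ha, h1.1]
      exact (h.inj _ hX0 _ hX0 _ h5).2
  choose! tR htR using hR
  choose! tJ htJ using hJ
  choose! z hz using hK
  obtain ⟨t, ht1, ht2, ht3⟩ : ∃ t : V → Fin 3, (∀ r ∈ R, t r = tR r) ∧ (∀ j ∈ J, t j = tJ j) ∧
      ∀ v, v ∉ R ∪ J → t v = 0 := by
    refine ⟨fun v => if v ∈ R then tR v else if v ∈ J then tJ v else 0, ?_, ?_, ?_⟩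
    · intro r hr
      exact if_pos hr
    · intro j hj
      dsimp only
      rw [if_neg (hRJ j hj), if_pos hj]
    · intro v hv
      rw [mem_union, not_or] at hv
      dsimp only
      rw [if_neg hv.1, if_neg hv.2]
  obtain ⟨ζ, hζ1, hζ2⟩ : ∃ ζ : V → A, (∀ k ∈ K, ζ k = z k) ∧ ∀ k, k ∉ K → ζ k = 0 :=
    ⟨fun v => if v ∈ K then z v else 0, fun k hk => if_pos hk, fun k hk => if_neg hk⟩
  refine ⟨t, ζ, ht3, ?_, hζ2, ?_, ?_, ?_, ?_⟩
  · intro k hk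
    rw [hζ1 k hk]
    exact (hz k hk).1
  · intro r hr i
    rw [ht1 r hr]
    exact htR r hr i
  · intro j hj
    rw [ht2 j hj]
    exact (htJ j hj).1
  · intro j hj
    rw [ht2 j hj]
    exact (htJ j hj).2
  · intro k hk
    rw [hζ1 k hk]
    exact (hz k hk).2

theorem BIJ_un (hFRD : FRD_stmt) (h : Dat θ R J K γ κ) {τ : G.Dart → G.Dart}
    {t t' : V → Fin 3} {ζ ζ' : V → A} (h1 : TF θ R J K γ κ t ζ τ) (h2 : TF θ R J K γ κ t' ζ' τ) :
    (∀ r ∈ R, t r = t' r) ∧ (∀ j ∈ J, t j = t' j) ∧ ∀ k ∈ K, ζ k = ζ' k := by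
  have hF := hFRD V A G θ R J K γ κ h
  have hq3 : ∀ x ∈ XX R J K, ∀ y ∈ XX R J K, ∀ a b, sd (θ a) (κ x) = sd (θ b) (κ y) →
      x = y ∧ a = b := fun x hx y hy a b hab => BIJ_uniq hF hx hy hab
  have hr0 : ∀ d : G.Dart, sd (θ 0) d = d := hF.r0
  refine ⟨?_, ?_, ?_⟩
  · intro r hr
    have hX : ∀ i, (r, i) ∈ XX R J K := fun i => BIJ_memX.2 (Or.inl hr)
    have h3 := (h1.1 r hr 0).symm.trans (h2.1 r hr 0)
    have h4 := hq3 (r, pa (t r) 0) (hX _) (r, pa (t' r) 0) (hX _) 0 0 (by rw [h3])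
    exact BIJ_pa0 _ _ (Prod.ext_iff.1 h4.1).2
  · intro j hj
    have hX0 : (j, 0) ∈ XX R J K := BIJ_memX.2 (Or.inr (Or.inl ⟨hj, Or.inl rfl⟩))
    have hX1 : (j, 1) ∈ XX R J K := BIJ_memX.2 (Or.inr (Or.inl ⟨hj, Or.inr rfl⟩))
    have hγ : γ j ≠ 0 ∧ γ j + γ j = 0 := (h.Jst j hj).1
    have hne : ((j, 0) : V × Fin 4) ≠ (j, 1) := fun h3 => absurd (Prod.ext_iff.1 h3).2
      (show ¬ ((0 : Fin 4) = 1) by decide)
    have h3 := (h1.2.1 j hj).symm.trans (h2.2.1 j hj)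
    have hc : ∀ u u' : Fin 3, (if u = 0 then sd (θ (γ j)) (κ (j, 0)) else
      if u = 1 then κ (j, 1) else sd (θ (γ j)) (κ (j, 1))) =
      (if u' = 0 then sd (θ (γ j)) (κ (j, 0)) else
      if u' = 1 then κ (j, 1) else sd (θ (γ j)) (κ (j, 1))) → u = u' := by
      have a1 : sd (θ (γ j)) (κ (j, 0)) ≠ κ (j, 1) := by
        intro h4
        exact hne (hq3 _ hX0 _ hX1 (γ j) 0 (by rw [hr0]; exact h4)).1
      have a2 : sd (θ (γ j)) (κ (j, 0)) ≠ sd (θ (γ j)) (κ (j, 1)) := by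
        intro h4
        exact hne (hq3 _ hX0 _ hX1 _ _ h4).1
      have a3 : κ (j, 1) ≠ sd (θ (γ j)) (κ (j, 1)) := by
        intro h4
        exact hγ.1 (hq3 _ hX1 _ hX1 0 (γ j) (by rw [hr0]; exact h4)).2.symm
      intro u u'
      fin_cases u <;> fin_cases u' <;> simp [a1, a2, a3, a1.symm, a2.symm, a3.symm]
    exact hc _ _ h3
  · intro k hk
    have hX0 : (k, 0) ∈ XX R J K := BIJ_memX.2 (Or.inr (Or.inr ⟨hk, rfl⟩))
    have h3 := (h1.2.2.2 k hk).symm.trans (h2.2.2.2 k hk)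
    exact (hq3 _ hX0 _ hX0 _ _ h3).2

end data

theorem BIJ (hFRD : FRD_stmt) : BIJ_stmt := by
  intro V A _ _ _ _ G θ R J K γ κ τ₀ hD hTS hInv
  classical
  have hF := hFRD V A G θ R J K γ κ hD
  have h1 : ∀ (t : V → Fin 3) (ζ : V → A), ∃ T : G.Dart → G.Dart, ζ ∈ pz K →
      IsTS T ∧ (∀ a, Inv (θ a) T) ∧ (∀ d, ¬ Yf θ d → T d = τ₀ d) ∧
      TF θ R J K γ κ t ζ T := by
    intro t ζ
    by_cases hζ : ζ ∈ pz K
    · obtain ⟨T, hT⟩ := BIJ_T hFRD hD hTS hInv t ζ hζ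
      exact ⟨T, fun _ => hT⟩
    · exact ⟨τ₀, fun h => absurd h hζ⟩
  choose T hT using h1
  refine ⟨T, fun t ζ hζ => hT t ζ hζ, ?_⟩
  intro τ h2 h3 h4
  have hpz : ∀ ζ : V → A, ζ ∈ pz K ↔ (∀ k ∈ K, ζ k ∈ O2 A) ∧ ∀ k, k ∉ K → ζ k = 0 := by
    intro ζ
    unfold pz
    simp only [mem_filter, mem_univ, true_and]
  have hpf : ∀ t : V → Fin 3, t ∈ pf (R ∪ J) ↔ ∀ v, v ∉ R ∪ J → t v = 0 := by
    intro t
    unfold pf
    rw [Fintype.mem_piFinset]
    constructor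
    · intro h v hv
      have h5 := h v
      rw [if_neg hv, mem_singleton] at h5
      exact h5
    · intro h v
      by_cases hv : v ∈ R ∪ J
      · rw [if_pos hv]; exact mem_univ _
      · rw [if_neg hv, mem_singleton]; exact h v hv
  obtain ⟨t, ζ, ht, hζ1, hζ2, hTF⟩ := BIJ_ex hFRD hD h2 h3
  have hζ : ζ ∈ pz K := (hpz ζ).2 ⟨hζ1, hζ2⟩
  have hEq : T t ζ = τ := by
    obtain ⟨h5, h6, h7, h8⟩ := hT t ζ hζ
    refine BIJ_ext hF (fun a d => h6 a d) (fun a d => h3 a d) (fun d hd => ?_) ?_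
    · rw [h7 d hd, h4 d hd]
    · rintro ⟨v, i⟩ hx
      rw [BIJ_memX] at hx
      dsimp only at hx
      rcases hx with hx | ⟨hx, hi⟩ | ⟨hx, hi⟩
      · rw [h8.1 v hx, hTF.1 v hx]
      · rcases hi with hi | hi
        · rw [hi, h8.2.1 v hx, hTF.2.1 v hx]
        · rw [hi, h8.2.2.1 v hx, hTF.2.2.1 v hx]
      · rw [hi, h8.2.2.2 v hx, hTF.2.2.2 v hx]
  refine ⟨(t, ζ), ⟨(hpf t).2 ht, hζ, hEq⟩, ?_⟩
  rintro ⟨t', ζ'⟩ ⟨h5, h6, h7⟩
  dsimp only at h5 h6 h7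
  have h8 := (hT t' ζ' h6).2.2.2
  rw [h7] at h8
  obtain ⟨h9, h10, h11⟩ := BIJ_un hFRD hD h8 hTF
  have e1 : t' = t := by
    funext v
    by_cases hv : v ∈ R ∪ J
    · rcases mem_union.1 hv with hv | hv
      · exact h9 v hv
      · exact h10 v hv
    · rw [(hpf t').1 h5 v hv, ht v hv]
  have e2 : ζ' = ζ := by
    funext v
    by_cases hv : v ∈ K
    · exact h11 v hv
    · rw [((hpz ζ').1 h6).2 v hv, hζ2 v hv]
  rw [e1, e2]

end Pool.Agent.SYM
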