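import Pool.Agent.helper5.SYM.SpecA

set_option autoImplicit false

namespace Pool.Agent.SYM
open Finset CT Polynomial

/-- both joins and the number of loops -/
def IN_K {D : Type} [DecidableEq D] (e : D → D) (a b c d : D) : (D → D) × ℕ :=
  (join (join e a b) c d, lp e a b + lp (join e a b) c d)

theorem IN_s1 {D : Type} [DecidableEq D] {e : D → D} (he : ∀ d, e (e d) = d) (a b c d : D) :
    IN_K e a b c d = IN_K e b a c d := by
  unfold IN_K
  rw [join_symm e he a b, lp_symm e he a b]

theorem IN_s2 {D : Type} [DecidableEq D] {e : D → D} (he : ∀ d, e (e d) = d) {a b : D} (c d : D)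
    (hab : a ≠ b) (ha : e a ≠ a) (hb : e b ≠ b) :
    IN_K e a b c d = IN_K e a b d c := by
  unfold IN_K
  have h := join_invol e he hab ha hb
  rw [join_symm _ h c d, lp_symm _ h c d]

theorem IN_ch {D : Type} [DecidableEq D] {e : D → D} (he : ∀ d, e (e d) = d) {p q y z : D}
    (hpq : e p = q) (hne : p ≠ q) (hpy : p ≠ y) (hpz : p ≠ z) (hqy : q ≠ y) (hqz : q ≠ z)
    (hyz : y ≠ z) (hy : e y ≠ y) (hz : e z ≠ z) :
    IN_K e p y q z = (join (join e p q) y z, lp (join e p q) y z) := by
  obtain ⟨h1, h2, h3⟩ := join_chain e he hpq hne hpy hpz hqy hqz hyz hy hz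
  unfold IN_K
  rw [h1, h2, h3, Nat.zero_add]

theorem IN_core {D : Type} [DecidableEq D] {e : D → D} (he : ∀ d, e (e d) = d) {a b c d : D}
    (hab : a ≠ b) (hac : a ≠ c) (had : a ≠ d) (hbc : b ≠ c) (hbd : b ≠ d) (hcd : c ≠ d)
    (ha : e a ≠ a) (hb : e b ≠ b) (hc : e c ≠ c) (hd : e d ≠ d)
    (h : e a = b ∨ e a = c ∨ e a = d ∨ e b = c ∨ e b = d ∨ e c = d) :
    ((IN_K e a b c d).2 ≠ 0 ∧ IN_K e a c b d = IN_K e a d b c) ∨
    ((IN_K e a c b d).2 ≠ 0 ∧ IN_K e a b c d = IN_K e a d b c) ∨
    ((IN_K e a d b c).2 ≠ 0 ∧ IN_K e a b c d = IN_K e a c b d) := by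
  rcases h with h | h | h | h | h | h
  · left
    refine ⟨?_, ?_⟩
    · simp [IN_K, CT.lp, h]
    · rw [IN_ch he h hab hac had hbc hbd hcd hc hd, IN_ch he h hab had hac hbd hbc hcd.symm hd hc]
      have h1 := join_invol e he hab ha hb
      rw [join_symm _ h1 c d, lp_symm _ h1 c d]
  · right; left
    refine ⟨?_, ?_⟩
    · simp [IN_K, CT.lp, h]
    · rw [IN_ch he h hac hab had hbc.symm hcd hbd hb hd, IN_s2 he b c had ha hd,
        IN_ch he h hac had hab hcd hbc.symm hbd.symm hd hb]
      have h1 := join_invol e he hac ha hc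
      rw [join_symm _ h1 b d, lp_symm _ h1 b d]
  · right; right
    refine ⟨?_, ?_⟩
    · simp [IN_K, CT.lp, h]
    · rw [IN_s2 he c d hab ha hb, IN_ch he h had hab hac hbd.symm hcd.symm hbc hb hc,
        IN_s2 he b d hac ha hc, IN_ch he h had hac hab hcd.symm hbd.symm hbc.symm hc hb]
      have h1 := join_invol e he had ha hd
      rw [join_symm _ h1 b c, lp_symm _ h1 b c]
  · right; right
    have h' : e c = b := by rw [← h, he]
    refine ⟨?_, ?_⟩
    · have h2 : join e a d b = c := by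
        unfold join
        rw [if_neg (by rintro (h3 | h3); exact hab h3.symm; exact hbd h3), if_neg (by rw [h]; exact hac.symm),
          if_neg (by rw [h]; exact hcd), h]
      simp [IN_K, CT.lp, h2]
    · rw [IN_s1 he a b, IN_ch he h hbc hab.symm hbd hac.symm hcd had ha hd, IN_s1 he a c,
        IN_ch he h' hbc.symm hac.symm hcd hab.symm hbd had ha hd, join_symm e he c b]
  · right; left
    have h' : e d = b := by rw [← h, he]
    refine ⟨?_, ?_⟩
    · have h2 : join e a c b = d := by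
        unfold join
        rw [if_neg (by rintro (h3 | h3); exact hab h3.symm; exact hbc h3), if_neg (by rw [h]; exact had.symm),
          if_neg (by rw [h]; exact hcd.symm), h]
      simp [IN_K, CT.lp, h2]
    · rw [IN_s1 he a b, IN_s2 he c d hab.symm hb ha,
        IN_ch he h hbd hab.symm hbc had.symm hcd.symm hac ha hc, IN_s1 he a d,
        IN_ch he h' hbd.symm had.symm hcd.symm hab.symm hbc hac ha hc, join_symm e he d b]
  · left
    have h' : e d = c := by rw [← h, he]
    refine ⟨?_, ?_⟩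
    · have h2 : join e a b c = d := by
        unfold join
        rw [if_neg (by rintro (h3 | h3); exact hac h3.symm; exact hbc h3.symm), if_neg (by rw [h]; exact had.symm),
          if_neg (by rw [h]; exact hbd.symm), h]
      simp [IN_K, CT.lp, h2]
    · rw [IN_s1 he a c, IN_s2 he b d hac.symm hc ha,
        IN_ch he h hcd hac.symm hbc.symm had.symm hbd.symm hab ha hb, IN_s1 he a d,
        IN_s2 he b c had.symm hd ha,
        IN_ch he h' hcd.symm had.symm hbd.symm hac.symm hbc.symm hab ha hb, join_symm e he d c]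

theorem IN : IN_stmt := by
  intro W _ R u L e i j he hne hij hij'
  have hji : e (u, j) = (u, i) := by rw [← hij', he]
  have hd : ∀ k l : Fin 4, k ≠ l → ((u, k) : W × Fin 4) ≠ (u, l) := by
    intro k l hkl h
    exact hkl (Prod.ext_iff.1 h).2
  have key := IN_core he (hd 0 1 (by decide)) (hd 0 2 (by decide)) (hd 0 3 (by decide))
    (hd 1 2 (by decide)) (hd 1 3 (by decide)) (hd 2 3 (by decide)) (hne 0) (hne 1) (hne 2) (hne 3)
    (by
      fin_cases i <;> fin_cases j <;>
        first
        | exact absurd rfl hij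
        | exact Or.inl hij'
        | exact Or.inl hji
        | exact Or.inr (Or.inl hij')
        | exact Or.inr (Or.inl hji)
        | exact Or.inr (Or.inr (Or.inl hij'))
        | exact Or.inr (Or.inr (Or.inl hji))
        | exact Or.inr (Or.inr (Or.inr (Or.inl hij')))
        | exact Or.inr (Or.inr (Or.inr (Or.inl hji)))
        | exact Or.inr (Or.inr (Or.inr (Or.inr (Or.inl hij'))))
        | exact Or.inr (Or.inr (Or.inr (Or.inr (Or.inl hji))))
        | exact Or.inr (Or.inr (Or.inr (Or.inr (Or.inr hij'))))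
        | exact Or.inr (Or.inr (Or.inr (Or.inr (Or.inr hji)))))
  have e0 : IN_K e (u, 0) (u, 1) (u, 2) (u, 3) = (sm e u 0, ls e u 0) := rfl
  have e1 : IN_K e (u, 0) (u, 2) (u, 1) (u, 3) = (sm e u 1, ls e u 1) := rfl
  have e2 : IN_K e (u, 0) (u, 3) (u, 1) (u, 2) = (sm e u 2, ls e u 2) := rfl
  rw [e0, e1, e2] at key
  show (∑ t : Fin 3, if ls e u t = 0 then NL R L (sm e u t) else 0) = 0
  rw [Fin.sum_univ_three]
  rcases key with ⟨h1, h2⟩ | ⟨h1, h2⟩ | ⟨h1, h2⟩
  · obtain ⟨h3, h4⟩ := Prod.ext_iff.1 h2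
    dsimp only at h1 h3 h4
    rw [if_neg h1, h3, h4, zero_add]
    exact CharTwo.add_self_eq_zero _
  · obtain ⟨h3, h4⟩ := Prod.ext_iff.1 h2
    dsimp only at h1 h3 h4
    rw [if_neg h1, h3, h4, add_zero]
    exact CharTwo.add_self_eq_zero _
  · obtain ⟨h3, h4⟩ := Prod.ext_iff.1 h2
    dsimp only at h1 h3 h4
    rw [if_neg h1, h3, h4, add_zero]
    exact CharTwo.add_self_eq_zero _

end Pool.Agent.SYM
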